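import Pool.Agent.Helper13.TW.StF

/-!
# Project TW (MP_a45945_gt), module GRX: good situations exist
-/

set_option autoImplicit false

namespace Pool.Agent.Helper23.TW

open Set Topology Pool.Agent.Helper13.TR Pool.Agent.Helper13.TW

private lemma mem_cin {S : Type} [TopologicalSpace S] (A : Set S) (n : ℕ) (c : Ch S n) :
    c ∈ cin A n ↔ ∀ σ : Sx S n, c σ ≠ 0 → range σ ⊆ A := by
  unfold cin
  rw [Finsupp.mem_supported]
  constructor
  · intro h σ hσ
    exact h (by simpa using hσ)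
  · intro h σ hσ
    exact h σ (by simpa using hσ)

private lemma preconn_Dl (n : ℕ) : PreconnectedSpace (Dl n) :=
  Subtype.preconnectedSpace (convex_stdSimplex ℝ (Fin (n + 1))).isPreconnected

/-- At an isolated point the relative 2-cycles avoid the point. -/
private lemma isol (hMON : StMON) {S : Type} [TopologicalSpace S] [T1Space S] (x : S)
    (hx : IsOpen ({x} : Set S)) (e : Ch S 2) (he : e ∈ Cyc {x} 2) : e ∈ cin {x}ᶜ 2 := by
  classical
  have hbd : bd 1 e ∈ cin ({x}ᶜ : Set S) 1 := he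
  set κ : Sx S 2 := ContinuousMap.const _ x with hκ
  set κ₁ : Sx S 1 := ContinuousMap.const _ x with hκ₁
  have := preconn_Dl 2
  have hσ : ∀ σ : Sx S 2, σ ≠ κ → range σ ⊆ ({x}ᶜ : Set S) := by
    intro σ hne y hy hyx
    apply hne
    have hsub : range σ ⊆ {x} := by
      refine (isPreconnected_range σ.continuous).subset_isClopen ⟨isClosed_singleton, hx⟩ ?_
      exact ⟨y, hy, hyx⟩
    ext t
    exact hsub ⟨t, rfl⟩
  have he₂ : e.erase κ ∈ cin ({x}ᶜ : Set S) 2 := by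
    rw [mem_cin]
    intro σ h
    apply hσ
    intro h'
    rw [h'] at h
    exact h Finsupp.erase_same
  have hsplit : e = Finsupp.single κ (e κ) + e.erase κ := (Finsupp.single_add_erase κ e).symm
  have hv : ∀ c ∈ cin ({x}ᶜ : Set S) 1, c κ₁ = 0 := by
    intro c hc
    by_contra hne
    have h := (mem_cin _ _ _).1 hc κ₁ hne
    exact h ⟨stdSimplex.vertex 0, rfl⟩ rfl
  have h1 : (bd 1 e) κ₁ = 0 := hv _ hbd
  have h2 : (bd 1 (e.erase κ)) κ₁ = 0 := hv _ ((hMON S).2.2.2.1 _ 1 _ he₂)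
  have h3 : bd 1 (Finsupp.single κ (e κ)) = Finsupp.single κ₁ (e κ) := by
    unfold bd
    rw [Finsupp.linearCombination_single]
    have hc : ∀ i : Fin (1 + 2), κ.comp (face 1 i) = κ₁ := by
      intro i
      ext t
      rfl
    simp only [hc]
    rw [Fin.sum_univ_three]
    simp
  have h4 : e κ = 0 := by
    rw [hsplit, map_add, Finsupp.add_apply, h2, add_zero, h3, Finsupp.single_eq_same] at h1
    exact h1
  rw [mem_cin]
  intro σ h
  apply hσ
  intro h'
  rw [h'] at h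
  exact h h4

/-- Bounding of cycles in a subspace. -/
private lemma lift_bd (hPSH : StPSH) {X : Type} [TopologicalSpace X] (S₀ : Set X) (O : Set ↥S₀)
    (V₁ : Set X) (hV : ∀ z ∈ cin V₁ 1, bd 0 z = 0 → ∃ e ∈ cin (Subtype.val '' O : Set X) 2, bd 1 e = z) :
    ∀ z ∈ cin (Subtype.val ⁻¹' V₁ : Set ↥S₀) 1, bd 0 z = 0 → ∃ e ∈ cin O 2, bd 1 e = z := by
  intro z hz hbz
  set f : C(↥S₀, X) := ⟨Subtype.val, continuous_subtype_val⟩ with hf
  obtain ⟨p1, -, p3, p4, p5, -⟩ := hPSH ↥S₀ X X f (ContinuousMap.id X)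
  have hfe : IsEmbedding f := IsEmbedding.subtypeVal
  have hz' : push f 1 z ∈ cin V₁ 1 := p3 V₁ 1 z hz
  have hb' : bd 0 (push f 1 z) = 0 := by
    rw [p1 0 z, hbz, map_zero]
  obtain ⟨e, he, hbe⟩ := hV _ hz' hb'
  obtain ⟨e', he', hee⟩ := p5 hfe O 2 e he
  refine ⟨e', he', ?_⟩
  apply p4 hfe.injective 1
  rw [← p1 1 e', hee, hbe]

private def toSub {X : Type} [TopologicalSpace X] {S₀ U : Set X} (h : S₀ ⊆ U) :
    ↥S₀ ≃ₜ ↥(Subtype.val ⁻¹' S₀ : Set ↥U) where
  toFun s := ⟨⟨s, h s.2⟩, s.2⟩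
  invFun t := ⟨t.1.1, t.2⟩
  left_inv _ := rfl
  right_inv _ := rfl
  continuous_toFun := by fun_prop
  continuous_invFun := by fun_prop

/-- GRX.  Good situations exist. -/
theorem hGRX (hWSX : StWSX) (hOPN2 : StOPN2) (hHOM2 : StHOM2) (hPSH : StPSH) (hMON : StMON) :
    StGRX := by
  intro X _ _ _ hM hL x
  have hT3 : T3Space X := by
    let _ := TopologicalSpace.metrizableSpaceMetric X
    infer_instance
  obtain ⟨U, hU, hxU, ω, hω⟩ := hWSX X hM x
  -- the path component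
  have hC₀o : IsOpen (pathComponentIn U x) := hU.pathComponentIn x
  have hxC : x ∈ pathComponentIn U x := mem_pathComponentIn_self hxU
  have hCU : pathComponentIn U x ⊆ U := pathComponentIn_subset
  -- another point
  obtain ⟨y₀, hy₀, hyx⟩ : ∃ y₀ ∈ pathComponentIn U x, y₀ ≠ x := by
    by_contra hcon
    push Not at hcon
    have hop : IsOpen ({(⟨x, hxU⟩ : ↥U)} : Set ↥U) := by
      have : ({(⟨x, hxU⟩ : ↥U)} : Set ↥U) = Subtype.val ⁻¹' pathComponentIn U x := by
        ext t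
        constructor
        · intro ht
          have ht' : t = ⟨x, hxU⟩ := ht
          rw [ht']
          exact hxC
        · intro ht
          exact Subtype.ext (hcon _ ht)
      rw [this]
      exact hC₀o.preimage continuous_subtype_val
    obtain ⟨e, he, he1⟩ := hω.one ⟨x, hxU⟩
    have h0 : ω ⟨x, hxU⟩ e = 0 :=
      hω.nul _ _ (Submodule.mem_sup_left (isol hMON _ hop e he))
    rw [he1] at h0
    exact one_ne_zero h0
  -- the space
  set C₁ : Set X := pathComponentIn U x \ {y₀} with hC₁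
  have hC₁o : IsOpen C₁ := hC₀o.sdiff isClosed_singleton
  have hxC₁ : x ∈ C₁ := ⟨hxC, fun h => hyx (by rw [mem_singleton_iff] at h; exact h.symm)⟩
  set S₀ : Set X := pathComponentIn C₁ x with hS₀
  have hS₀o : IsOpen S₀ := hC₁o.pathComponentIn x
  have hxS : x ∈ S₀ := mem_pathComponentIn_self hxC₁
  have hSC : S₀ ⊆ C₁ := pathComponentIn_subset
  have hSU : S₀ ⊆ U := fun s hs => hCU (hSC hs).1
  have hSp : IsPathConnected S₀ := isPathConnected_pathComponentIn hxC₁
  have hws' := hHOM2 _ ↥S₀ (toSub hSU) _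
    (hOPN2 ↥U ω (Subtype.val ⁻¹' S₀) hω (hS₀o.preimage continuous_subtype_val))
  obtain ⟨V₀, hV₀o, hxV₀, hV₀S, hV₀⟩ := hL x S₀ hS₀o hxS
  refine ⟨S₀, hxS, _, Subtype.val ⁻¹' V₀, hS₀o, isPathConnected_iff_pathConnectedSpace.1 hSp,
    ⟨hws', ?_, hV₀o.preimage continuous_subtype_val, ?_⟩, hxV₀, ?_⟩
  · intro hcomp
    have hcl : IsClosed S₀ := (isCompact_iff_compactSpace.2 hcomp).isClosed
    have hsub : pathComponentIn U x ⊆ S₀ :=
      (isPathConnected_pathComponentIn hxU).isConnected.isPreconnected.subset_isClopen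
        ⟨hcl, hS₀o⟩ ⟨x, hxC, hxS⟩
    exact (hSC (hsub hy₀)).2 rfl
  · intro z hz hbz
    have hV' : ∀ z ∈ cin V₀ 1, bd 0 z = 0 →
        ∃ e ∈ cin (Subtype.val '' (univ : Set ↥S₀) : Set X) 2, bd 1 e = z := by
      intro z hz hbz
      rw [image_univ, Subtype.range_coe]
      exact hV₀ z hz hbz
    obtain ⟨e, -, he⟩ := lift_bd hPSH S₀ univ V₀ hV' z hz hbz
    exact ⟨e, he⟩
  · intro s O hO hs
    obtain ⟨V₁, hV₁o, hsV₁, hV₁O, hV₁⟩ := hL (s : X) (Subtype.val '' O)
      (hS₀o.isOpenMap_subtype_val O hO) ⟨s, hs, rfl⟩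
    refine ⟨Subtype.val ⁻¹' V₁, hV₁o.preimage continuous_subtype_val, hsV₁, ?_, ?_⟩
    · intro t ht
      obtain ⟨t', ht', htt⟩ := hV₁O ht
      rw [Subtype.ext htt] at ht'
      exact ht'
    · exact lift_bd hPSH S₀ O V₁ hV₁

end Pool.Agent.Helper23.TW
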